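import Pool.Agent.H36.Part

open Pool.Agent.H38.NP Pool.Agent.H36.Part

theorem Pool.Agent.Results.MP_42fe4d_lc.Hard.result : NPHardOn Valid Violated :=
  hard.npHardOn
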